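import Pool.Agent.Helper49K9.PC.Space

set_option autoImplicit false

/-!
# An infinite-dimensional Peano continuum all of whose subsets have trivial higher homotopy groups

`X` is obtained from `[0, 1]` by gluing the Cantor set onto the countable power `Z` of the
pseudo-arc, by a continuous surjection. It is a Peano continuum, as a Hausdorff quotient of
`[0, 1]`, and it contains `Z`, so its dimension is infinite. Every point outside of `Z` has small
neighbourhoods with two boundary points, and `Z` contains no nonconstant path. For a map `f` of the
`m`-cube to such a space, two points with different images are separated by a component of the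
fibre of a point outside of `Z`. The components of the complements of these components form a
nested family of open sets; this gives a continuous median map on the cube with values in the image
of `f`, and the median of the origin, of `y` and of `t y` contracts `f` in its image.

`DimLE X n` (covering dimension at most `n`) is defined in `Pool.Agent.Helper49K9.PC.Dim`.
-/

namespace Pool.Agent.Results.MP_ac4f45_gt.InfiniteDimensional

open Pool.Agent.Helper49K9.PC

theorem result : ∃ (X : Type) (_ : MetricSpace X),
    CompactSpace X ∧ ConnectedSpace X ∧ LocallyConnectedSpace X ∧ (∀ n : ℕ, ¬ DimLE X n) ∧
    ∀ (M : Set X) (x : M) (m : ℕ), 2 ≤ m → Subsingleton (HomotopyGroup (Fin m) M x) := by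
  refine ⟨XX, TopologicalSpace.metrizableSpaceMetric XX, inferInstance, inferInstance,
    inferInstance, not_dimLE_XX, ?_⟩
  intro M x m hm
  exact hom_trivial pathFree_Zc rimFin_Zc M x hm

end Pool.Agent.Results.MP_ac4f45_gt.InfiniteDimensional
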